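import Mathlib
import Pool.Agent.H782.Am.Fin2

/-!
# The Ambrose problem: the pullback of the metric along one exponential map determines the manifold

Riemannian `n`-manifolds are modelled as smooth embedded submanifolds of Euclidean spaces (finite
dimensional real inner product spaces), of arbitrary codimension, with the induced metric. By the
Nash embedding theorem every Riemannian manifold is of this form, up to isometry.

The definitions used in the statement are in `Pool.Agent.H782.Am.Defs`.

Outline of the proof. Write `X` for `T_pM`, and attach to a vector `ξ` of `X` the geodesics
`t ↦ exp_p (t ξ)`, `t ↦ exp_q (t I ξ)` and the coframes parallel along them.

1. The equality of the two pulled back tensors, plus the Jacobi equation and the structure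
   equations, give the equality of the tautological, connection and curvature forms of the two
   coframe maps on `X`, including at conjugate points.
2. Let `S` be the set of all triples `(exp_p ξ, exp_q (I ξ), L_ξ)`, where `L_ξ` is the isometry
   of tangent spaces given by parallel translation along the two geodesics. The key step is that
   `S` is closed under developing a second pair of geodesics issuing from such a triple. It is
   proved by optimal control: minimise the energy of a control plus a large multiple of the
   distance of the endpoint to the target, pass to the limit of discretised minimisers (this
   gives a solution of the Hamiltonian equations, without abnormal extremals), and show, with the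
   conservation law of the rotation group and the equality of the curvature forms, that such an
   extremal is the pair of rays of a single vector `ξ`.
3. Hence the curvature forms agree along every geodesic issuing from a triple of `S`, so `S` is
   an integral leaf of the rolling distribution. With its leaf topology `S` covers `M` and `N`,
   and simple connectedness makes both coverings bijective.
-/

set_option autoImplicit false

open Pool.Agent.H782.Am

namespace Pool.Agent.Results.MP_3fed84_gt.Ambrose

/-- **The Ambrose problem, answered in the affirmative in every dimension.** Let `M` and `N` be
complete, simply connected Riemannian manifolds of dimension `n`, let `p` be a point of `M` and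
`q` a point of `N`, and let `I` be a linear isometry from `T_pM` onto `T_qN` carrying the pullback
of the metric of `M` along `exp_p` to the pullback of the metric of `N` along `exp_q`. Then there
is an isometry `F` of `M` onto `N` with `F p = q`; moreover `F (exp_p y) = exp_q (I y)` for all
`y` in `T_pM`. -/
theorem result {E E' : Type} [NormedAddCommGroup E] [InnerProductSpace ℝ E]
    [FiniteDimensional ℝ E] [NormedAddCommGroup E'] [InnerProductSpace ℝ E']
    [FiniteDimensional ℝ E'] {n : ℕ} {M : Set E} {N : Set E'} (hM : CompleteSC n M)
    (hN : CompleteSC n N) (p : M) (q : N) (I : tangent M (p : E) → tangent N (q : E'))
    (hI : IsLinIso I)
    (hh : ∀ y v w, expPullback N (q : E') (I y) (I v) (I w) = expPullback M (p : E) y v w) :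
    ∃ F : M ≃ N, IsIsometry F ∧ F p = q ∧
      ∀ y, ∃ hy : expMap M (p : E) y ∈ M,
        (F ⟨expMap M (p : E) y, hy⟩ : E') = expMap N (q : E') (I y) :=
  ambrose_fun hM hN p q I hI hh

end Pool.Agent.Results.MP_3fed84_gt.Ambrose
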